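import Pool.Agent.Run7.h985.TC.Stm2

/-!
# Piece CK1 of project TC: a thick subcategory which contains the objects in degree zero contains
all finite direct sums of objects in one degree
-/

set_option autoImplicit false

open CategoryTheory Limits MonoidalCategory Pretriangulated Triangulated

namespace Run7.h403.TC

open Run7.h985.TC Pool.Agent.Y116.MT Pool.Agent.V1178.MT Run7.h822.MT

universe v u w

theorem t_CK1 : S_CK1.{v, u, w} := by
  intro C _ _ _ _ _ _ _ _ _ _ _ E _ R P hP h0 X hX
  induction hX with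
  | one q hX =>
    rename_i X
    have h1 : P (X⟦q⟧) := by
      apply h0
      intro i hi
      exact (hX (q + i) (by omega)).of_iso (R.H.mapIso ((shiftFunctorAdd C q i).app X).symm)
    have h2 : P (X⟦q⟧⟦-q⟧) := hP.shift _ _ h1
    exact hP.retract (shiftShiftNeg X q).inv (shiftShiftNeg X q).hom (Iso.inv_hom_id _) h2
  | sum iA rA iB rB hA hB h sA sB ihA ihB =>
    rename_i A B X
    obtain ⟨Z, g, d, hT⟩ := distinguished_cocone_triangle iA
    have z1 : iA ≫ rB = 0 := by
      have e1 : iA ≫ (rA ≫ iA + rB ≫ iB) = iA := by rw [h, Category.comp_id]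
      rw [Preadditive.comp_add, ← Category.assoc, hA, Category.id_comp, add_eq_left] at e1
      have e2 : (iA ≫ rB ≫ iB) ≫ rB = 0 := by rw [e1, zero_comp]
      rwa [Category.assoc, Category.assoc, hB, Category.comp_id] at e2
    have z2 : d = 0 := by
      have e1 := comp31 hT
      have e2 : (d ≫ iA⟦(1 : ℤ)⟧') ≫ rA⟦(1 : ℤ)⟧' = 0 := by rw [e1, zero_comp]
      rwa [Category.assoc, ← Functor.map_comp, hA, CategoryTheory.Functor.map_id, Category.comp_id] at e2
    obtain ⟨k, hk⟩ := ye2 hT rB z1
    have z3 : iA ≫ g = 0 := comp12 hT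
    have z4 : g ≫ (k ≫ iB ≫ g) = g := by
      have e1 : (rA ≫ iA + rB ≫ iB) ≫ g = g := by rw [h, Category.id_comp]
      rw [Preadditive.add_comp, Category.assoc, z3, comp_zero, zero_add, hk, Category.assoc,
        Category.assoc] at e1
      exact e1
    have z5 : k ≫ iB ≫ g = 𝟙 Z := by
      have e1 : g ≫ (k ≫ iB ≫ g - 𝟙 Z) = 0 := by
        rw [Preadditive.comp_sub, z4, Category.comp_id, sub_self]
      obtain ⟨l, hl⟩ := ye3 hT _ e1
      rw [z2, zero_comp, sub_eq_zero] at hl
      exact hl
    exact hP.ext iA g d hT ihA (hP.retract k (iB ≫ g) z5 ihB)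

end Run7.h403.TC
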